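import Mathlib

set_option autoImplicit false

namespace Pool.Agent.Results.MP_92b5af_al.Yes

/-- Every nontrivial element survives in some quotient belonging to the class `C`. -/
def Residually (C : ∀ (G : Type) [Group G], Prop) (Γ : Type) [Group Γ] : Prop :=
  ∀ g : Γ, g ≠ 1 → ∃ (N : Subgroup Γ) (_ : N.Normal), g ∉ N ∧ C (Γ ⧸ N)

open scoped commutatorElement MatrixGroups

section generic

variable {P M : Type} [Group P] [AddCommGroup M] (ρ : Representation ℤ P M)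

@[ext] structure SD (ρ : Representation ℤ P M) where
  w : M
  g : P

instance : Mul (SD ρ) := ⟨fun a b => ⟨a.w + ρ a.g b.w, a.g * b.g⟩⟩
instance : One (SD ρ) := ⟨⟨0, 1⟩⟩
instance : Inv (SD ρ) := ⟨fun a => ⟨-ρ a.g⁻¹ a.w, a.g⁻¹⟩⟩
@[simp] theorem mul_w (a b : SD ρ) : (a * b).w = a.w + ρ a.g b.w := rfl
@[simp] theorem mul_g (a b : SD ρ) : (a * b).g = a.g * b.g := rfl
@[simp] theorem one_w : (1 : SD ρ).w = 0 := rfl
@[simp] theorem one_g : (1 : SD ρ).g = 1 := rfl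
@[simp] theorem inv_w (a : SD ρ) : (a⁻¹).w = -ρ a.g⁻¹ a.w := rfl
@[simp] theorem inv_g (a : SD ρ) : (a⁻¹).g = a.g⁻¹ := rfl

instance : Group (SD ρ) := Group.ofLeftAxioms
  (fun a b c => by ext <;> simp [add_assoc, mul_assoc]) (fun a => by ext <;> simp)
  (fun a => by ext <;> simp)

def right : SD ρ →* P := ⟨⟨SD.g, rfl⟩, fun _ _ => rfl⟩

def inr : P →* SD ρ := ⟨⟨fun g => ⟨0, g⟩, rfl⟩, fun _ _ => by ext <;> simp⟩

def inl : Multiplicative M →* SD ρ := ⟨⟨fun m => ⟨m.toAdd, 1⟩, rfl⟩, fun _ _ => by ext <;> simp⟩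

theorem sep (N : Subgroup P) {B : Type} [AddCommGroup B] (l : M →+ B)
    (h : ∀ n ∈ N, ∀ m, l (ρ n m) = l m) : ∃ Λ : Subgroup (SD ρ), (∀ a ∈ Λ, l a.w = 0) ∧
      ⁅N.comap (right ρ), N.comap (right ρ)⁆ ≤ Λ ∧ (Finite B → N.FiniteIndex → Λ.FiniteIndex) := by
  let ψ : N.comap (right ρ) →* Multiplicative B := MonoidHom.mk' (fun a => .ofAdd (l a.1.w))
    fun a b => by simp [h a.1.g a.2, ← ofAdd_add]
  refine ⟨ψ.ker.map (Subgroup.subtype _), ?_, ?_, fun _ _ => ⟨?_⟩⟩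
  · rintro _ ⟨a, ha, rfl⟩
    exact ha
  · rw [← Subgroup.map_subtype_commutator]
    exact Subgroup.map_mono (Abelianization.commutator_subset_ker ψ)
  · rw [Subgroup.index_map_subtype,
      Subgroup.index_comap_of_surjective _ fun g => ⟨inr ρ g, rfl⟩]
    exact mul_ne_zero Subgroup.FiniteIndex.index_ne_zero Subgroup.FiniteIndex.index_ne_zero

theorem generic (h1 : ∀ g : P, g ≠ 1 → ∃ N : Subgroup P, N.FiniteIndex ∧ g ∉ N)
    (h2 : ∀ g : P, g ≠ 1 → ∃ k, g ∉ derivedSeries P k)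
    (h3 : ∀ m : M, m ≠ 0 → ∃ (N : Subgroup P) (B : Type) (_ : AddCommGroup B) (l : M →+ B),
      N.FiniteIndex ∧ Finite B ∧ (∀ n ∈ N, ∀ m, l (ρ n m) = l m) ∧ l m ≠ 0)
    (h4 : ∀ m : M, m ≠ 0 → ∃ (k : ℕ) (B : Type) (_ : AddCommGroup B) (l : M →+ B),
      (∀ n ∈ derivedSeries P k, ∀ m, l (ρ n m) = l m) ∧ l m ≠ 0)
    (w : M) (h5 : w ≠ 0)
    (h6 : ∀ j : ℕ, ∃ m e, ∃ v ∈ derivedSeries P j, w = j.factorial • m + (ρ v e - e)) :
    Residually (fun G _ => Finite G) (SD ρ) ∧ Residually (fun G _ => Group.IsSolvable G) (SD ρ) ∧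
      ¬ Residually (fun G _ => Finite G ∧ Group.IsSolvable G) (SD ρ) := by
  have h7 : ∀ a : SD ρ, a ≠ 1 → a.g = 1 → a.w ≠ 0 := fun a h h' h'' => h (SD.ext h'' h')
  have h8 : ∀ k, derivedSeries (SD ρ) k ≤ (derivedSeries P k).comap (right ρ) := fun k =>
    Subgroup.map_le_iff_le_comap.mp (map_derivedSeries_le_derivedSeries _ k)
  refine ⟨fun a ha => ?_, fun a ha => ?_, fun h => ?_⟩
  · obtain ⟨Λ, h9, h10⟩ : ∃ Λ : Subgroup (SD ρ), Λ.FiniteIndex ∧ a ∉ Λ := by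
      by_cases h : a.g = 1
      · obtain ⟨N, B, _, l, h9, h10, h11, h12⟩ := h3 _ (h7 a ha h)
        obtain ⟨Λ, h13, -, h14⟩ := sep ρ N l h11
        exact ⟨Λ, h14 h10 h9, fun h => h12 (h13 a h)⟩
      · obtain ⟨N, h9, h10⟩ := h1 _ h
        refine ⟨N.comap (right ρ), ⟨?_⟩, h10⟩
        rw [Subgroup.index_comap_of_surjective _ fun g => ⟨inr ρ g, rfl⟩]
        exact h9.1
    exact ⟨Λ.normalCore, inferInstance, fun h => h10 (Λ.normalCore_le h), inferInstance⟩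
  · obtain ⟨k, h9⟩ : ∃ k, a ∉ derivedSeries (SD ρ) k := by
      by_cases h : a.g = 1
      · obtain ⟨k, B, _, l, h11, h12⟩ := h4 _ (h7 a ha h)
        obtain ⟨Λ, h13, h14, -⟩ := sep ρ _ l h11
        exact ⟨k + 1, fun h => h12 (h13 a (h14 (Subgroup.commutator_mono (h8 k) (h8 k) h)))⟩
      · obtain ⟨k, h9⟩ := h2 _ h
        exact ⟨k, fun h => h9 (h8 k h)⟩
    refine ⟨_, derivedSeries_normal _ k, h9, k, ?_⟩
    rw [← map_derivedSeries_eq (QuotientGroup.mk'_surjective _), Subgroup.map_eq_bot_iff,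
      QuotientGroup.ker_mk']
  · obtain ⟨N, _, h9, h10, n, h11⟩ := h (inl ρ (.ofAdd w)) fun h => h5 (congrArg SD.w h)
    obtain ⟨m, e, v, h12, h13⟩ := h6 (max n (Nat.card (SD ρ ⧸ N)))
    have h14 : QuotientGroup.mk' N (inr ρ v) = 1 := by
      have := map_derivedSeries_le_derivedSeries ((QuotientGroup.mk' N).comp (inr ρ)) n
        ⟨v, derivedSeries_antitone _ (le_max_left ..) h12, rfl⟩
      rwa [h11] at this
    have h15 : inl ρ (.ofAdd w) = inl ρ (.ofAdd m) ^ (max n (Nat.card (SD ρ ⧸ N))).factorial *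
        ⁅inr ρ v, inl ρ (.ofAdd e)⁆ := by
      rw [← map_pow, commutatorElement_def]
      ext
      · simpa [inl, inr, sub_eq_add_neg] using h13
      · simp [inl, inr]
    refine h9 ((QuotientGroup.eq_one_iff _).mp ?_)
    obtain ⟨c, hc⟩ := Nat.dvd_factorial Nat.card_pos (le_max_right n (Nat.card (SD ρ ⧸ N)))
    rw [← QuotientGroup.mk'_apply, h15, map_mul, map_pow, map_commutatorElement, h14, hc, pow_mul,
      pow_card_eq_one']
    simp

end generic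

section congruence

open Matrix

abbrev Mat := Matrix (Fin 2) (Fin 2) ℤ

def mv : SL(2, ℤ) →* Mat := SpecialLinearGroup.coeMonoidHom

def Γ (n : ℕ) : Subgroup SL(2, ℤ) := (SpecialLinearGroup.map (Int.castRingHom (ZMod n))).ker

theorem mem_Γ {n : ℕ} {g : SL(2, ℤ)} : g ∈ Γ n ↔ ∃ X, mv g = 1 + (n : ℤ) • X := by
  have h : g ∈ Γ n ↔ ∀ i j, (n : ℤ) ∣ (mv g - 1) i j := by
    refine (Matrix.SpecialLinearGroup.ext_iff _ _).trans (forall₂_congr fun i j => ?_)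
    rw [← ZMod.intCast_zmod_eq_zero_iff_dvd, Matrix.sub_apply, Int.cast_sub, sub_eq_zero]
    change ((mv g i j : ℤ) : ZMod n) = (1 : Matrix _ _ (ZMod n)) i j ↔ _
    simp [one_apply]
  rw [h]
  refine ⟨fun h => ?_, fun ⟨X, hX⟩ i j => ⟨X i j, by rw [hX, add_sub_cancel_left]; rfl⟩⟩
  choose X hX using h
  exact ⟨of X, eq_add_of_sub_eq' (by ext i j; simpa using hX i j)⟩

theorem Γ_anti {m n : ℕ} (h : m ∣ n) : Γ n ≤ Γ m := fun g hg => by
  obtain ⟨c, rfl⟩ := h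
  obtain ⟨X, hX⟩ := mem_Γ.mp hg
  exact mem_Γ.mpr ⟨(c : ℤ) • X, by rw [hX, smul_smul]; simp⟩

theorem Γ_sq {n : ℕ} {g : SL(2, ℤ)} (h : g ∈ Γ (2 * n)) : g ^ 2 ∈ Γ (2 * (2 * n)) := by
  obtain ⟨X, hX⟩ := mem_Γ.mp h
  refine mem_Γ.mpr ⟨X + (n : ℤ) • (X * X), ?_⟩
  rw [map_pow, hX, sq]
  simp only [mul_add, add_mul, smul_mul_assoc, mul_smul_comm, one_mul, mul_one]
  push_cast
  module

theorem Γ_comm {n : ℕ} {g h : SL(2, ℤ)} (hg : g ∈ Γ n) (hh : h ∈ Γ n) : ⁅g, h⁆ ∈ Γ (n * n) := by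
  obtain ⟨X, hX⟩ := mem_Γ.mp hg
  obtain ⟨Y, hY⟩ := mem_Γ.mp hh
  refine mem_Γ.mpr ⟨(X * Y - Y * X) * mv (h * g)⁻¹, ?_⟩
  have h1 : mv (g * h) = mv (h * g) + ((n * n : ℕ) : ℤ) • (X * Y - Y * X) := by
    simp only [map_mul, hX, hY, mul_add, add_mul, smul_mul_assoc,
      mul_smul_comm, one_mul, mul_one]
    push_cast
    module
  rw [show ⁅g, h⁆ = g * h * (h * g)⁻¹ by group, map_mul, h1, add_mul, ← map_mul, mul_inv_cancel,
    smul_mul_assoc, map_one]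

theorem Γ_inf {g : SL(2, ℤ)} (h : ∀ k, g ∈ Γ (2 * 2 ^ k)) : g = 1 := by
  ext i j
  refine sub_eq_zero.mp (Int.eq_zero_of_dvd_of_natAbs_lt_natAbs
    (d := (2 * 2 ^ (g i j - (1 : SL(2, ℤ)) i j).natAbs : ℕ)) ?_ ?_)
  · obtain ⟨X, hX⟩ := mem_Γ.mp (h (g i j - (1 : SL(2, ℤ)) i j).natAbs)
    exact ⟨X i j, sub_eq_iff_eq_add'.mpr (congrFun (congrFun hX i) j)⟩
  · have := Nat.lt_two_pow_self (n := (g i j - (1 : SL(2, ℤ)) i j).natAbs)
    rw [Int.natAbs_natCast]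
    omega

abbrev P := Γ 2

def N (k : ℕ) : Subgroup P := (Γ (2 * 2 ^ k)).subgroupOf P

theorem N_fin (k : ℕ) : (N k).FiniteIndex := by
  have : (Γ (2 * 2 ^ k)).FiniteIndex := Subgroup.finiteIndex_ker _
  unfold N
  infer_instance

theorem N_anti : Antitone N := fun _ _ h =>
  Subgroup.comap_mono (Γ_anti (Nat.mul_dvd_mul_left _ (pow_dvd_pow _ h)))

theorem N_inf {g : P} (h : ∀ k, g ∈ N k) : g = 1 := Subtype.ext (Γ_inf h)

theorem D_le (k : ℕ) : derivedSeries P k ≤ N k := by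
  induction k with
  | zero => exact fun g _ => g.2
  | succ k ih =>
    refine Subgroup.commutator_le.mpr fun a ha b hb => ?_
    exact Γ_anti ⟨2 ^ k, by ring⟩ (Γ_comm (ih ha) (ih hb))

abbrev H := SL(2, ZMod 5)

def π : P →* H := (SpecialLinearGroup.map (Int.castRingHom (ZMod 5))).comp (Subgroup.subtype _)

def u : H := ⟨!![1, 1; 0, 1], by decide⟩

def l : H := ⟨!![1, 0; 1, 1], by decide⟩

theorem ex_v (j : ℕ) : ∃ a ∈ derivedSeries P j, ∃ b ∈ derivedSeries P j, π a = u ∧ π b = l := by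
  induction j with
  | zero =>
    refine ⟨⟨⟨!![1, 6; 0, 1], by decide⟩, mem_Γ.mpr ⟨!![0, 3; 0, 0], by decide⟩⟩, trivial,
      ⟨⟨!![1, 0; 6, 1], by decide⟩, mem_Γ.mpr ⟨!![0, 0; 3, 0], by decide⟩⟩, trivial, ?_, ?_⟩ <;>
    exact Subtype.ext (by decide)
  | succ j ih =>
    obtain ⟨a, ha, b, hb, h1, h2⟩ := ih
    have h3 : a ^ 2 * b ^ 2 * a * b * a ^ 4 ∈ derivedSeries P j :=
      mul_mem (mul_mem (mul_mem (mul_mem (pow_mem ha _) (pow_mem hb _)) ha) hb) (pow_mem ha _)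
    refine ⟨_, Subgroup.commutator_mem_commutator h3 (pow_mem ha 2), _,
      Subgroup.commutator_mem_commutator (inv_mem h3) (pow_mem hb 2), ?_, ?_⟩ <;>
    simp only [map_commutatorElement, map_mul, map_pow, map_inv, h1, h2] <;>
    decide +kernel

theorem inf_order {a : P} (h : π a = u) : ¬ IsOfFinOrder a := fun h1 => by
  obtain ⟨n, h2, h3⟩ := isOfFinOrder_iff_pow_eq_one.mp h1
  obtain ⟨s, m, ⟨t, rfl⟩, rfl⟩ := Nat.exists_eq_two_pow_mul_odd h2.ne'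
  have h4 : a ^ 2 ^ s = 1 := N_inf fun k => by
    induction k with
    | zero => exact (a ^ 2 ^ s).2
    | succ k ih =>
      have h5 : (a ^ 2 ^ s) ^ 2 ∈ N (k + 1) := by
        have := Γ_sq ih
        rwa [← pow_succ'] at this
      have := pow_mem h5 (t + 1)
      rwa [← pow_mul, show 2 * (t + 1) = 2 * t + 1 + 1 by ring, pow_succ, ← pow_mul, h3,
        one_mul] at this
  have h5 : orderOf u = 5 :=
    have : Fact (Nat.Prime 5) := ⟨by norm_num⟩
    orderOf_eq_prime (by decide +kernel) (by decide +kernel)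
  have h6 : 5 ∣ 2 ^ s := by
    rw [← h5, orderOf_dvd_iff_pow_eq_one, ← h, ← map_pow, h4, map_one]
  exact absurd (Nat.Prime.dvd_of_dvd_pow (by norm_num) h6) (by norm_num)

def e (h : H) : ZMod 5 := if h.1 1 0 = 0 then -h.1 0 1 * h.1 1 1 ^ 3 else -h.1 0 0 * h.1 1 0 ^ 3

theorem e_u : ∀ h : H, e (u⁻¹ * h) = e h + 1 := by decide +kernel

end congruence

section main

open Finsupp

noncomputable def v (j : ℕ) : P := (ex_v j).choose

theorem v_mem (j : ℕ) : v j ∈ derivedSeries P j := (ex_v j).choose_spec.1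

theorem π_v (j : ℕ) : π (v j) = u := (ex_v j).choose_spec.2.choose_spec.2.1

abbrev U := ℕ × P →₀ ℤ

abbrev W := AddCircle (1 : ℚ) × (H → ZMod 5) × U

noncomputable def sh (g : P) : U →ₗ[ℤ] U := lmapDomain ℤ ℤ fun z => (z.1, g * z.2)

noncomputable def ρ : Representation ℤ P W where
  toFun g := LinearMap.prodMap .id
    (LinearMap.prodMap (LinearMap.funLeft ℤ _ fun h => (π g)⁻¹ * h) (sh g))
  map_one' := by ext <;> simp [sh]
  map_mul' g h := by ext <;> simp [sh, mul_assoc]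

noncomputable def T : U →ₗ[ℤ] U := lmapDomain ℤ ℤ (fun z => (z.1, z.2 * v z.1)) - .id

noncomputable def C : U →ₗ[ℤ] U := linearCombination ℤ fun z => single z (z.1.factorial : ℤ)

theorem C_apply (x : U) (z : ℕ × P) : C x z = z.1.factorial * x z := by
  induction x using Finsupp.induction_linear with
  | zero => simp
  | add x y hx hy => simp [hx, hy, mul_add]
  | single a n =>
    rcases eq_or_ne a z with rfl | h
    · simp [C, mul_comm]
    · simp [C, single_eq_of_ne h.symm]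

noncomputable def Φ₁ : U →ₗ[ℤ] W :=
  (linearCombination ℤ fun z => (((1 : ℚ) / (5 * z.1.factorial) : ℚ) : AddCircle (1 : ℚ))).prod
    ((0 : U →ₗ[ℤ] H → ZMod 5).prod T)

noncomputable def Φ₂ : U →ₗ[ℤ] W :=
  (0 : U →ₗ[ℤ] AddCircle (1 : ℚ)).prod
    ((linearCombination ℤ fun z h => e ((π z.2)⁻¹ * h)).prod (-C))

noncomputable def w : W := ((((1 : ℚ) / 5 : ℚ) : AddCircle (1 : ℚ)), fun _ => 1, 0)

theorem ρ_Φ₁ (g : P) : ρ g ∘ₗ Φ₁ = Φ₁ ∘ₗ sh g := by
  ext <;> simp [ρ, Φ₁, sh, T, mapDomain_sub, mul_assoc]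

theorem ρ_Φ₂ (g : P) : ρ g ∘ₗ Φ₂ = Φ₂ ∘ₗ sh g := by
  ext <;> simp [ρ, Φ₂, sh, C, mul_assoc, ← single_neg]

theorem Φ_rel : Φ₁ ∘ₗ C + Φ₂ ∘ₗ T = linearCombination ℤ fun _ => w := by
  refine lhom_ext' fun z => LinearMap.ext_ring (Prod.ext ?_ (Prod.ext (funext fun h => ?_) ?_))
  · have : (z.1.factorial : ℚ) ≠ 0 := by positivity
    simp only [Φ₁, Φ₂, C, w, LinearMap.comp_apply, lsingle_apply, LinearMap.add_apply,
      linearCombination_single, one_smul, Prod.fst_add, LinearMap.prod_apply, Function.prod,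
      LinearMap.zero_apply, add_zero, ← AddCircle.coe_zsmul]
    congr 1
    simp only [zsmul_eq_mul, Int.cast_natCast]
    field_simp
  · simp [Φ₁, Φ₂, C, T, w, π_v, mul_assoc, e_u]
  · simp [Φ₁, Φ₂, C, T, w]

theorem key (x y : U) (h : (Φ₁ x + Φ₂ y).2.2 = 0) : ∃ k : ℤ, Φ₁ x + Φ₂ y = k • w := by
  replace h : T x = C y := by simpa [Φ₁, Φ₂, add_neg_eq_zero] using h
  have h1 : ∀ z, (z.1.factorial : ℤ) ∣ x z := fun z => by
    by_contra h1
    refine Set.infinite_of_injective_forall_mem (f := fun n : ℕ => (z.1, z.2 * (v z.1)⁻¹ ^ n))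
      (s := x.support) (fun a b hab => ?_) (fun n => ?_) (Finset.finite_toSet _)
    · exact injective_pow_iff_not_isOfFinOrder.mpr (by simpa using inf_order (π_v z.1))
        (by simpa using hab)
    · suffices ¬ (z.1.factorial : ℤ) ∣ x (z.1, z.2 * (v z.1)⁻¹ ^ n) by
        exact mem_support_iff.mpr fun h => this (h ▸ dvd_zero _)
      induction n with
      | zero => simpa using h1
      | succ n ih =>
        have h2 := DFunLike.congr_fun h (z.1, z.2 * (v z.1)⁻¹ ^ n)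
        have h3 := mapDomain_apply (f := fun z : ℕ × P => (z.1, z.2 * v z.1)) (by
          rintro ⟨a, b⟩ ⟨c, d⟩ h
          obtain ⟨rfl, h⟩ := Prod.mk.inj h
          exact Prod.ext rfl (mul_right_cancel h)) x (z.1, z.2 * (v z.1)⁻¹ ^ (n + 1))
        simp only [pow_succ, mul_assoc, inv_mul_cancel, mul_one] at h3
        simp only [T, LinearMap.sub_apply, lmapDomain_apply, LinearMap.id_apply, coe_sub,
          Pi.sub_apply, h3, C_apply] at h2
        rw [pow_succ]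
        exact fun h4 => ih ((dvd_sub_right h4).mp ⟨_, h2⟩)
  choose r hr using h1
  obtain ⟨r, rfl⟩ : ∃ r, x = C r := ⟨onFinset x.support r fun z hz => by
    simp [hr z, hz, z.1.factorial_ne_zero], ext fun z => by rw [C_apply, hr z]; rfl⟩
  have h2 : T ∘ₗ C = C ∘ₗ T := by ext; simp [T, C]
  obtain rfl : T r = y := ext fun z => by
    have := DFunLike.congr_fun ((LinearMap.congr_fun h2 r).symm.trans h) z
    rw [LinearMap.comp_apply, C_apply, C_apply] at this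
    exact mul_left_cancel₀ (by exact_mod_cast z.1.factorial_ne_zero) this
  refine ⟨r.sum fun _ n => n, (LinearMap.congr_fun Φ_rel r).trans ?_⟩
  simp [linearCombination_apply, sum, Finset.sum_smul]

noncomputable def M : Submodule ℤ W := LinearMap.range Φ₁ ⊔ LinearMap.range Φ₂

theorem M_inv (g : P) : M ≤ M.comap (ρ g) := by
  refine sup_le ?_ ?_ <;> rintro _ ⟨x, rfl⟩
  · exact Submodule.mem_sup_left ⟨_, (LinearMap.congr_fun (ρ_Φ₁ g) x).symm⟩
  · exact Submodule.mem_sup_right ⟨_, (LinearMap.congr_fun (ρ_Φ₂ g) x).symm⟩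

theorem w_eq (j : ℕ) : w = j.factorial • Φ₁ (single (j, 1) 1) +
    (ρ (v j) (Φ₂ (single (j, 1) 1)) - Φ₂ (single (j, 1) 1)) := by
  have h1 := LinearMap.congr_fun Φ_rel (single (j, 1) 1)
  have h2 := LinearMap.congr_fun (ρ_Φ₂ (v j)) (single (j, 1) 1)
  rw [LinearMap.comp_apply] at h2
  rw [h2, ← map_nsmul]
  simpa [C, T, sh] using h1.symm

theorem sepU (x : U) (h : x ≠ 0) :
    ∃ (k : ℕ) (l : U →ₗ[ℤ] ℤ), (∀ n ∈ N k, l ∘ₗ sh n = l) ∧ l x ≠ 0 := by
  classical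
  obtain ⟨z, hz⟩ := support_nonempty_iff.mpr h
  have h1 : ∀ y : ℕ × P, ∃ k, y.2 * z.2⁻¹ ∈ N k → y.2 = z.2 := fun y => by
    by_contra! h1
    exact (h1 0).2 (mul_inv_eq_one.mp (N_inf fun k => (h1 k).1))
  choose k hk using h1
  refine ⟨x.support.sup k, linearCombination ℤ fun y =>
    if y.1 = z.1 ∧ y.2 * z.2⁻¹ ∈ N (x.support.sup k) then 1 else 0, fun n hn => ?_, ?_⟩
  · ext y
    simp [sh, mul_assoc, (N _).mul_mem_cancel_left hn]
  · rw [linearCombination_apply, sum, Finset.sum_eq_single z]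
    · simpa using hz
    · exact fun y hy h2 => by
        rw [if_neg fun h => h2 (Prod.ext h.1 (hk y (N_anti (Finset.le_sup hy) h.2))), smul_zero]
    · exact fun h => absurd hz h

theorem smul_w (k : ℤ) : ((k • w).1 = 0 ↔ 5 ∣ k) ∧ ((k • w).2.1 1 = 0 ↔ 5 ∣ k) ∧
    (5 ∣ k → k • w = 0) := by
  have h1 : (k • w).1 = 0 ↔ 5 ∣ k := by
    simp only [w, Prod.smul_fst, ← AddCircle.coe_zsmul, AddCircle.coe_eq_zero_iff, zsmul_eq_mul]
    refine exists_congr fun n => ⟨fun h => ?_, fun h => by rw [h]; push_cast; ring⟩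
    exact_mod_cast (by linarith : (k : ℚ) = 5 * n)
  have h2 : ∀ h, (k • w).2.1 h = 0 ↔ 5 ∣ k := fun h => by
    simpa [w] using ZMod.intCast_zmod_eq_zero_iff_dvd k 5
  exact ⟨h1, h2 1, fun h => Prod.ext (h1.2 h) (Prod.ext (funext fun x => (h2 x).2 h) (by simp [w]))⟩

theorem result : ∃ (Γ : Type) (_ : Group Γ), Residually (fun G _ => Finite G) Γ ∧
    Residually (fun G _ => Group.IsSolvable G) Γ ∧
    ¬ Residually (fun G _ => Finite G ∧ Group.IsSolvable G) Γ := by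
  have h0 : ∀ g : P, g ≠ 1 → ∃ k, g ∉ N k := fun g h => not_forall.mp (mt N_inf h)
  have h1 : ∀ m : M, m ≠ 0 → m.1.2.2 = 0 → m.1.1 ≠ 0 ∧ m.1.2.1 1 ≠ 0 := by
    rintro ⟨m, hm⟩ h h2
    obtain ⟨_, ⟨x, rfl⟩, _, ⟨y, rfl⟩, rfl⟩ := Submodule.mem_sup.mp hm
    obtain ⟨k, hk⟩ := key x y h2
    obtain ⟨h3, h4, h5⟩ := smul_w k
    simp only [hk, ne_eq, h3, h4, and_self]
    exact fun h6 => h (Subtype.ext (hk.trans (h5 h6)))
  let p : M →ₗ[ℤ] U := LinearMap.snd ℤ _ _ ∘ₗ LinearMap.snd ℤ _ _ ∘ₗ M.subtype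
  refine ⟨_, _, generic (ρ.subrepresentation M M_inv) (fun g h => ?_) (fun g h => ?_)
    (fun m h => ?_) (fun m h => ?_) ⟨w, ?_⟩ (fun h => ?_) fun j => ⟨⟨_, Submodule.mem_sup_left
      ⟨single (j, 1) 1, rfl⟩⟩, ⟨_, Submodule.mem_sup_right ⟨single (j, 1) 1, rfl⟩⟩, v j, v_mem j,
      Subtype.ext (w_eq j)⟩⟩
  · exact (h0 g h).imp' N fun k hk => ⟨N_fin k, hk⟩
  · exact (h0 g h).imp fun k hk h => hk (D_le k h)
  · by_cases h2 : m.1.2.2 = 0
    · refine ⟨π.ker, ZMod 5, inferInstance, .mk' (fun m => m.1.2.1 1) fun _ _ => rfl,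
        inferInstance, inferInstance, fun n hn m => ?_, (h1 m h h2).2⟩
      change m.1.2.1 ((π n)⁻¹ * 1) = m.1.2.1 1
      rw [hn, inv_one, one_mul]
    · obtain ⟨k, l, h3, h4⟩ := sepU _ h2
      refine ⟨N k, ZMod ((l m.1.2.2).natAbs + 1), inferInstance,
        (Int.castAddHom _).comp (l ∘ₗ p).toAddMonoidHom, N_fin k, inferInstance,
        fun n hn m => congrArg Int.cast (LinearMap.congr_fun (h3 n hn) m.1.2.2), fun h5 => h4 ?_⟩
      exact Int.eq_zero_of_dvd_of_natAbs_lt_natAbs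
        ((ZMod.intCast_zmod_eq_zero_iff_dvd _ _).mp h5) (Nat.lt_succ_self _)
  · by_cases h2 : m.1.2.2 = 0
    · exact ⟨0, AddCircle (1 : ℚ), inferInstance, .mk' (fun m => m.1.1) fun _ _ => rfl,
        fun _ _ _ => rfl, (h1 m h h2).1⟩
    · obtain ⟨k, l, h3, h4⟩ := sepU _ h2
      exact ⟨k, ℤ, inferInstance, (l ∘ₗ p).toAddMonoidHom,
        fun n hn m => LinearMap.congr_fun (h3 n (D_le k hn)) m.1.2.2, h4⟩
  · exact Submodule.mem_sup.mpr ⟨_, ⟨_, rfl⟩, _, ⟨_, rfl⟩,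
      by simpa using LinearMap.congr_fun Φ_rel (single (0, 1) 1)⟩
  · exact absurd (congrArg (fun m : M => m.1.2.1 1) h) (by decide : (1 : ZMod 5) ≠ 0)

end main

end Pool.Agent.Results.MP_92b5af_al.Yes
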